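import Pool.Agent.helper38.OP.Spec

/-!
# Project OP, row CRP: pigeonhole
-/

set_option autoImplicit false

namespace Pool.Agent.OP

open Finset Real Pool.Agent.AT Pool.Agent.helper85.FC Pool.Agent.OM

theorem CRP : CRP_stmt := by
  intro hO ε hε
  obtain ⟨L, hL⟩ := hO ε hε
  refine ⟨L, fun a b ha hb hab hne σ hσ => ?_⟩
  obtain ⟨r₀, hr₀⟩ := hL a b ha hb hab hne σ hσ
  refine ⟨r₀, fun r hr => ?_⟩
  obtain ⟨q, C, X₀, hq, hX⟩ := hr₀ r hr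
  by_contra hcon
  push Not at hcon
  have h1 : ∀ m s : ℕ, ∃ X₁ : ℕ, m ∈ Ico 1 L → s < q → ∀ X : ℕ, X₁ ≤ X →
      ¬ (1 - ε) * X ≤ q * NC σ a b (r * m) q s X := by
    intro m s
    by_cases hm : m ∈ Ico 1 L ∧ s < q
    · by_contra h2
      apply hcon m hm.1
      refine ⟨q, s, hq, hm.2, fun X₁ => ?_⟩
      by_contra h3
      push Not at h3
      exact h2 ⟨X₁, fun _ _ X hX1 => not_le.mpr (h3 X hX1)⟩
    · exact ⟨0, fun h2 h3 => absurd ⟨h2, h3⟩ hm⟩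
  choose X₁ hX₁ using h1
  obtain ⟨m, hm, s, hs, X', hX1, -, hX3⟩ := hX (X₀ + ∑ m ∈ Ico 1 L, ∑ s ∈ range q, X₁ m s) (Nat.le_add_right _ _)
  refine hX₁ m s hm hs X' ?_ hX3
  have h4 : X₁ m s ≤ ∑ s ∈ range q, X₁ m s :=
    Finset.single_le_sum (f := fun s => X₁ m s) (fun _ _ => Nat.zero_le _) (Finset.mem_range.mpr hs)
  have h5 : ∑ s ∈ range q, X₁ m s ≤ ∑ m ∈ Ico 1 L, ∑ s ∈ range q, X₁ m s :=
    Finset.single_le_sum (f := fun m => ∑ s ∈ range q, X₁ m s) (fun _ _ => Nat.zero_le _) hm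
  omega

end Pool.Agent.OP
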